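import Pool.Agent.Q246.TP.Val
import Pool.Agent.Q20.TW.Stp

/-! The defect of Deligne's conjecture for the Artin twists of a motive: an additive and inductive
function of characters. -/

set_option autoImplicit false
set_option linter.unusedSectionVars false

namespace Pool.Agent.Q246.TP

open Complex Filter NumberField IsDedekindDomain Polynomial
open Pool.Agent.Q246.BI Pool.Agent.Q246.DL Pool.Agent.W401.Cheb
open Pool.Agent.Q20.RS (FinExt GalF Fn ind Char base fin_base)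
open Pool.Agent.Q20.RS.RL (AddInd plus Lin)
open scoped Classical

section
variable {K : Type} [Field K] [NumberField K]

theorem Datum.bad (x : Datum K) (σ : ℂ ≃+* ℂ) : ∃ S : Set (HeightOneSpectrum (𝓞 K)),
    (∃ s : ℝ, 1 < s ∧ Bad x.α x.m s S) ∧ ∃ s : ℝ, 1 < s ∧ Bad (cjA σ x.α) x.m s S := by
  obtain ⟨s₁, S₁, h₁, hS₁⟩ := exists_bad x.α x.m (w := x.w)
    ⟨x.pure.mono fun v hv i => (hv i).1, x.pure.mono fun v hv i => (hv i).2 (RingEquiv.refl ℂ)⟩
    x.right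
  obtain ⟨s₂, S₂, h₂, hS₂⟩ := exists_bad (cjA σ x.α) x.m (w := x.w)
    ⟨x.pure.mono fun v hv i => by
        have h1 := IsAlgebraic.algHom ((σ : ℂ →+* ℂ).toRatAlgHom) (hv i).1
        exact h1,
      x.pure.mono fun v hv i => (hv i).2 σ⟩ x.right
  exact ⟨S₁ ∪ S₂, ⟨s₁, h₁, bad_mono hS₁ Set.subset_union_left (hS₁.fin.union hS₂.fin)⟩,
    ⟨s₂, h₂, bad_mono hS₂ Set.subset_union_right (hS₁.fin.union hS₂.fin)⟩⟩

/-- the bad places -/
noncomputable def Datum.S (x : Datum K) (σ : ℂ ≃+* ℂ) : Set (HeightOneSpectrum (𝓞 K)) :=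
  (x.bad σ).choose

theorem Datum.hS (x : Datum K) (σ : ℂ ≃+* ℂ) : (∃ s : ℝ, 1 < s ∧ Bad x.α x.m s (x.S σ)) ∧
    ∃ s : ℝ, 1 < s ∧ Bad (cjA σ x.α) x.m s (x.S σ) := (x.bad σ).choose_spec

/-- `L(m, M ⊗ χ)` without the bad places -/
noncomputable def EE {n : ℕ} (α : HeightOneSpectrum (𝓞 K) → Fin n → ℂ) (m : ℤ)
    (S : Set (HeightOneSpectrum (𝓞 K))) (χ : Gal(AlgebraicClosure K/K) → ℂ) : ℂˣ :=
  Units.mk0 (exp (∑' v, hh α m S χ v)) (exp_ne_zero _)

theorem EE_add {n : ℕ} {α : HeightOneSpectrum (𝓞 K) → Fin n → ℂ} {m : ℤ} {s : ℝ}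
    {S : Set (HeightOneSpectrum (𝓞 K))} (hS : Bad α m s S) (hs : 1 < s)
    {χ χ' : Gal(AlgebraicClosure K/K) → ℂ} (h : IsGalChar χ) (h' : IsGalChar χ') :
    EE α m S (χ + χ') = EE α m S χ * EE α m S χ' := by
  obtain ⟨C, hC⟩ := exists_bound h
  obtain ⟨C', hC'⟩ := exists_bound h'
  apply Units.ext
  change exp _ = exp _ * exp _
  rw [← exp_add]
  congr 1
  have h1 : ∀ v, hh α m S (χ + χ') v = hh α m S χ v + hh α m S χ' v := hh_add hS hs hC hC'
  rw [tsum_congr h1, (hh_summable hS hs hC).tsum_add (hh_summable hS hs hC')]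

/-- `σ` on units -/
noncomputable def su (σ : ℂ ≃+* ℂ) : ℂˣ →* ℂˣ := Units.map ((σ : ℂ →+* ℂ) : ℂ →* ℂ)

theorem su_val (σ : ℂ ≃+* ℂ) (u : ℂˣ) : ((su σ u : ℂˣ) : ℂ) = σ u := rfl

/-- the defect as a function of characters -/
noncomputable def Datum.D (x : Datum K) (χ : Gal(AlgebraicClosure K/K) → ℂ) :
    (ℂ ≃+* ℂ) → Additive ℂˣ := fun σ =>
  Additive.ofMul (su σ (EE x.α x.m (x.S σ) χ / x.p (RingEquiv.refl ℂ) χ) /
    (EE (cjA σ x.α) x.m (x.S σ) (fun g => σ (χ g)) / x.p σ (fun g => σ (χ g))))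

theorem galchar_conj (σ : ℂ ≃+* ℂ) {χ : Gal(AlgebraicClosure K/K) → ℂ} (h : IsGalChar χ) :
    IsGalChar (fun g => σ (χ g)) := by
  obtain ⟨d, ρ, hρ, rfl⟩ := artin_of_isGalChar h
  rw [← cjR_char]
  exact isGalChar_of_artin (cjR_artin σ hρ)

theorem Datum.p_add (x : Datum K) (σ : ℂ ≃+* ℂ) {χ χ' : Gal(AlgebraicClosure K/K) → ℂ}
    (h : IsGalChar χ) (h' : IsGalChar χ') : x.p σ (χ + χ') = x.p σ χ * x.p σ χ' := by
  obtain ⟨d, ρ, hρ, rfl⟩ := artin_of_isGalChar h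
  obtain ⟨d', ρ', hρ', rfl⟩ := artin_of_isGalChar h'
  exact x.mul σ d d' ρ ρ' hρ hρ'

theorem Datum.D_add (x : Datum K) {χ χ' : Gal(AlgebraicClosure K/K) → ℂ} (h : IsGalChar χ)
    (h' : IsGalChar χ') : x.D (χ + χ') = x.D χ + x.D χ' := by
  funext σ
  obtain ⟨⟨s₁, h₁, hS₁⟩, s₂, h₂, hS₂⟩ := x.hS σ
  have e0 : (fun g => σ ((χ + χ') g)) = (fun g => σ (χ g)) + fun g => σ (χ' g) := by
    funext g
    exact map_add σ _ _
  have e1 := EE_add hS₁ h₁ h h'
  have e2 := EE_add hS₂ h₂ (galchar_conj σ h) (galchar_conj σ h')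
  have e3 := x.p_add (RingEquiv.refl ℂ) h h'
  have e4 := x.p_add σ (galchar_conj σ h) (galchar_conj σ h')
  rw [Pi.add_apply]
  unfold Datum.D
  rw [← ofMul_mul, e0, e1, e2, e3, e4]
  congr 1
  rw [_root_.map_div, _root_.map_div, _root_.map_div, _root_.map_mul, _root_.map_mul]
  simp only [div_eq_mul_inv, mul_inv_rev, inv_inv]
  simp only [mul_comm, mul_left_comm, mul_assoc]

theorem Datum.defect_eq (x : Datum K) (σ : ℂ ≃+* ℂ) {d : ℕ}
    {ρ : Representation ℂ Gal(AlgebraicClosure K/K) (Fin d → ℂ)} (h : IsArtin ρ)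
    {B : HeightOneSpectrum (𝓞 K) → ℂ[X]} (hB : IsTw x.α ρ x.m B) :
    x.defect σ ρ.character B = ((Additive.toMul (x.D ρ.character σ) : ℂˣ) : ℂ) := by
  obtain ⟨⟨s₁, h₁, hS₁⟩, s₂, h₂, hS₂⟩ := x.hS σ
  obtain ⟨n1, n2, e⟩ := value_conj σ hS₁ h₁ hS₂ h₂ h hB
  change σ (value x.m B / (x.p (RingEquiv.refl ℂ) ρ.character : ℂ)) /
    (value x.m (fun v => (B v).map (σ : ℂ →+* ℂ)) / (x.p σ (fun g => σ (ρ.character g)) : ℂ)) = _
  have e5 : ((Additive.toMul (x.D ρ.character σ) : ℂˣ) : ℂ) =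
      σ (exp (∑' v, hh x.α x.m (x.S σ) ρ.character v) / (x.p (RingEquiv.refl ℂ) ρ.character : ℂ)) /
        (exp (∑' v, hh (cjA σ x.α) x.m (x.S σ) (fun g => σ (ρ.character g)) v) /
          (x.p σ (fun g => σ (ρ.character g)) : ℂ)) := by
    unfold Datum.D
    rw [toMul_ofMul, Units.val_div_eq_div_val, Units.val_div_eq_div_val, su_val,
      Units.val_div_eq_div_val]
    rfl
  rw [e5]
  set E := exp (∑' v, hh x.α x.m (x.S σ) ρ.character v) with hE
  set E' := exp (∑' v, hh (cjA σ x.α) x.m (x.S σ) (fun g => σ (ρ.character g)) v) with hE'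
  have hE0 : E ≠ 0 := exp_ne_zero _
  have hE0' : E' ≠ 0 := exp_ne_zero _
  have hp : (x.p (RingEquiv.refl ℂ) ρ.character : ℂ) ≠ 0 := Units.ne_zero _
  have hp' : (x.p σ (fun g => σ (ρ.character g)) : ℂ) ≠ 0 := Units.ne_zero _
  have hσE : σ E ≠ 0 := (map_ne_zero σ).2 hE0
  have hσp : σ (x.p (RingEquiv.refl ℂ) ρ.character : ℂ) ≠ 0 := (map_ne_zero σ).2 hp
  rw [map_div₀] at e
  rw [map_div₀, map_div₀]
  have e6 : σ (value x.m B) = value x.m (fun v => (B v).map (σ : ℂ →+* ℂ)) / E' * σ E := by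
    rw [← e, div_mul_cancel₀ _ hσE]
  rw [e6]
  field_simp

theorem Datum.ne (x : Datum K) (σ : ℂ ≃+* ℂ) {d : ℕ}
    {ρ : Representation ℂ Gal(AlgebraicClosure K/K) (Fin d → ℂ)} (h : IsArtin ρ)
    {B : HeightOneSpectrum (𝓞 K) → ℂ[X]} (hB : IsTw x.α ρ x.m B) :
    value x.m B ≠ 0 ∧ value x.m (fun v => (B v).map (σ : ℂ →+* ℂ)) ≠ 0 := by
  obtain ⟨⟨s₁, h₁, hS₁⟩, s₂, h₂, hS₂⟩ := x.hS σ
  obtain ⟨n1, n2, -⟩ := value_conj σ hS₁ h₁ hS₂ h₂ h hB
  exact ⟨n1, n2⟩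

theorem Datum.exists_B (x : Datum K) {d : ℕ}
    {ρ : Representation ℂ Gal(AlgebraicClosure K/K) (Fin d → ℂ)} (h : IsArtin ρ) :
    ∃ B, IsTw x.α ρ x.m B := by
  obtain ⟨⟨s₁, h₁, hS₁⟩, -⟩ := x.hS (RingEquiv.refl ℂ)
  exact exists_tw hS₁ h₁ h

theorem Datum.holds_iff (x : Datum K) {χ : Gal(AlgebraicClosure K/K) → ℂ} (h : IsGalChar χ) :
    x.Holds χ ↔ x.D χ = 0 := by
  have key : ∀ (σ : ℂ ≃+* ℂ) (d : ℕ)
      (ρ : Representation ℂ Gal(AlgebraicClosure K/K) (Fin d → ℂ)),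
      IsArtin ρ → ∀ B, IsTw x.α ρ x.m B →
        (σ (value x.m B / (x.p (RingEquiv.refl ℂ) ρ.character : ℂ)) =
        value x.m (fun v => (B v).map (σ : ℂ →+* ℂ)) /
          (x.p σ (fun g => σ (ρ.character g)) : ℂ) ↔ x.D ρ.character σ = 0) := by
    intro σ d ρ hρ B hB
    obtain ⟨n1, n2⟩ := x.ne σ hρ hB
    have h3 := x.defect_eq σ hρ hB
    have h4 : value x.m (fun v => (B v).map (σ : ℂ →+* ℂ)) /
        (x.p σ (fun g => σ (ρ.character g)) : ℂ) ≠ 0 := div_ne_zero n2 (Units.ne_zero _)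
    have h5 : x.D ρ.character σ = 0 ↔
        ((Additive.toMul (x.D ρ.character σ) : ℂˣ) : ℂ) = 1 := by
      rw [Units.val_eq_one]
      exact toMul_eq_one.symm
    rw [h5, ← h3]
    exact (div_eq_one_iff_eq h4).symm
  constructor
  · intro hH
    funext σ
    obtain ⟨d, ρ, hρ, rfl⟩ := artin_of_isGalChar h
    obtain ⟨B, hB⟩ := x.exists_B hρ
    exact (key σ d ρ hρ B hB).1 (hH σ d ρ hρ rfl B hB)
  · rintro h0 σ d ρ hρ rfl B hB
    exact (key σ d ρ hρ B hB).2 (congrFun h0 σ)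

theorem Datum.same_iff (x : Datum K) {k : ℕ} {χ₁ χ₂ : Gal(AlgebraicClosure K/K) → ℂ}
    (h : k • x.D χ₁ = k • x.D χ₂) : x.Same k χ₁ χ₂ := by
  rintro σ d₁ d₂ ρ₁ ρ₂ h₁ h₂ rfl rfl B₁ B₂ hB₁ hB₂
  rw [x.defect_eq σ h₁ hB₁, x.defect_eq σ h₂ hB₂, ← Units.val_pow_eq_pow_val,
    ← Units.val_pow_eq_pow_val]
  exact congrArg (fun z : Additive ℂˣ => ((Additive.toMul z : ℂˣ) : ℂ)) (congrFun h σ)

theorem Datum.roots_iff (x : Datum K) {χ : Gal(AlgebraicClosure K/K) → ℂ} (h : IsGalChar χ) :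
    x.Roots χ ↔ ∃ k : ℕ, 0 < k ∧ k • x.D χ = 0 := by
  have key : ∀ (k : ℕ) (σ : ℂ ≃+* ℂ) (d : ℕ)
      (ρ : Representation ℂ Gal(AlgebraicClosure K/K) (Fin d → ℂ)),
      IsArtin ρ → ∀ B, IsTw x.α ρ x.m B →
        (x.defect σ ρ.character B ^ k = 1 ↔ k • x.D ρ.character σ = 0) := by
    intro k σ d ρ hρ B hB
    rw [x.defect_eq σ hρ hB, ← Units.val_pow_eq_pow_val, Units.val_eq_one, ← toMul_nsmul]
    exact toMul_eq_one
  constructor
  · rintro ⟨k, hk, hH⟩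
    refine ⟨k, hk, ?_⟩
    funext σ
    obtain ⟨d, ρ, hρ, rfl⟩ := artin_of_isGalChar h
    obtain ⟨B, hB⟩ := x.exists_B hρ
    exact (key k σ d ρ hρ B hB).1 (hH σ d ρ hρ rfl B hB)
  · rintro ⟨k, hk, h0⟩
    refine ⟨k, hk, ?_⟩
    rintro σ d ρ hρ rfl B hB
    exact (key k σ d ρ hρ B hB).2 (congrFun h0 σ)

/-! ### Induced characters -/

theorem galchar_ind {F : Sub K} (hF : FinExt F) {χ : Fn F} (h : Char χ) : IsGalChar (indK F χ) := by
  obtain ⟨n, τ, ⟨E, hE, h1⟩, h2⟩ := Pool.Agent.Q20.RS.RL.ind_char' fin_base hF h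
  exact ⟨n, τ.comp toBot, ⟨E, hE, fun g hg => h1 (toBot g) hg⟩, fun g => h2 (toBot g)⟩

theorem indK_plus {F : Sub K} (hF : FinExt F) {χ χ' : Fn F} (h : Char χ) (h' : Char χ') :
    indK F (plus χ χ') = indK F χ + indK F χ' := by
  funext g
  exact Pool.Agent.Q20.RS.RL.induced_plus hF h h' (toBot g)

theorem indK_trans {F F' : Sub K} (hle : F ≤ F') (hF : FinExt F) (hF' : FinExt F') {χ : Fn F'}
    (h : Char χ) : indK F (ind F F' χ) = indK F' χ := by
  funext g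
  exact congrFun (Pool.Agent.Q20.LG.induced_trans (Pool.Agent.Q20.TR.bt K) F F' bot_le hle hF hF'
    (Pool.Agent.Q20.RS.RL.char_conj_inv h)) (toBot g)

theorem fin_of_le {F F' : Sub K} (hle : F ≤ F') (hF' : FinExt F') : FinExt F := by
  have : FiniteDimensional K F' := hF'
  exact FiniteDimensional.of_injective (IntermediateField.inclusion hle).toLinearMap
    (IntermediateField.inclusion hle).injective

/-- the defect is additive and inductive -/
theorem Datum.addInd (x : Datum K) : AddInd (K := K) fun F χ => x.D (indK F χ) := by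
  refine ⟨fun F hF χ χ' h h' => ?_, fun F F' hle hF' χ h => ?_⟩
  · change x.D (indK F (plus χ χ')) = x.D (indK F χ) + x.D (indK F χ')
    rw [indK_plus hF h h', x.D_add (galchar_ind hF h) (galchar_ind hF h')]
  · rw [indK_trans hle (fin_of_le hle hF') hF' h]

theorem defects_tfd : Pool.Agent.Q20.RS.RL.TorsionFreeDivisible Defects := by
  refine ⟨fun n b hn => ?_, fun n b hn h => ?_⟩
  · obtain ⟨f, rfl⟩ := QuotientAddGroup.mk_surjective b
    have h1 : ∀ σ, ∃ c : Additive ℂˣ, n • c = f σ := by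
      intro σ
      obtain ⟨y, hy⟩ := IsAlgClosed.exists_pow_nat_eq ((Additive.toMul (f σ) : ℂˣ) : ℂ) hn
      have hy0 : y ≠ 0 := by
        rintro rfl
        rw [zero_pow hn.ne'] at hy
        exact Units.ne_zero _ hy.symm
      refine ⟨Additive.ofMul (Units.mk0 y hy0), ?_⟩
      rw [← ofMul_pow]
      apply Additive.toMul.injective
      rw [toMul_ofMul]
      apply Units.ext
      rw [Units.val_pow_eq_pow_val, Units.val_mk0, hy]
    choose c hc using h1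
    exact ⟨QuotientAddGroup.mk c, by
      rw [← QuotientAddGroup.mk_nsmul]
      exact congrArg _ (funext hc)⟩
  · obtain ⟨f, rfl⟩ := QuotientAddGroup.mk_surjective b
    rw [← QuotientAddGroup.mk_nsmul, QuotientAddGroup.eq_zero_iff] at h
    rw [QuotientAddGroup.eq_zero_iff]
    change IsOfFinAddOrder (n • f) at h
    change IsOfFinAddOrder f
    exact h.of_nsmul hn.ne'

theorem Datum.cls_eq (x : Datum K) {F : Sub K} (hF : FinExt F) {χ : Fn F} (h : Char χ) :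
    x.cls F χ = QuotientAddGroup.mk (x.D (indK F χ)) := by
  have hex : ∃ u : (ℂ ≃+* ℂ) → ℂˣ, ∃ (d : ℕ)
      (ρ : Representation ℂ Gal(AlgebraicClosure K/K) (Fin d → ℂ))
      (B : HeightOneSpectrum (𝓞 K) → ℂ[X]), IsArtin ρ ∧ ρ.character = indK F χ ∧
      IsTw x.α ρ x.m B ∧ ∀ σ, ((u σ : ℂˣ) : ℂ) = x.defect σ (indK F χ) B := by
    obtain ⟨d, ρ, hρ, hρχ⟩ := artin_of_isGalChar (galchar_ind hF h)
    obtain ⟨B, hB⟩ := x.exists_B hρ
    refine ⟨fun σ => Additive.toMul (x.D (indK F χ) σ), d, ρ, B, hρ, hρχ, hB, fun σ => ?_⟩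
    rw [← hρχ]
    exact (x.defect_eq σ hρ hB).symm
  unfold Datum.cls
  rw [dif_pos hex]
  obtain ⟨d, ρ, B, hρ, hρχ, hB, h1⟩ := hex.choose_spec
  congr 1
  funext σ
  have h2 : x.defect σ (indK F χ) B = ((Additive.toMul (x.D (indK F χ) σ) : ℂˣ) : ℂ) := by
    have h3 := x.defect_eq σ hρ hB
    rwa [hρχ] at h3
  exact congrArg Additive.ofMul (Units.ext ((h1 σ).trans h2))

theorem Datum.cls_addInd (x : Datum K) : AddInd x.cls := by
  have h := x.addInd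
  refine ⟨fun F hF χ χ' h1 h2 => ?_, fun F F' hle hF' χ h1 => ?_⟩
  · rw [x.cls_eq hF h1, x.cls_eq hF h2,
      x.cls_eq hF (Pool.Agent.Q20.RS.RL.plus_char hF h1 h2)]
    exact congrArg QuotientAddGroup.mk (h.add F hF χ χ' h1 h2)
  · have hF := fin_of_le hle hF'
    rw [x.cls_eq hF' h1, x.cls_eq hF (Pool.Agent.Q20.RS.RL.ind_char' hF hF' h1)]
    exact congrArg QuotientAddGroup.mk (h.ind F F' hle hF' χ h1)

theorem Datum.cls_zero (x : Datum K) {F : Sub K} (hF : FinExt F) {χ : Fn F} (h : Char χ) :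
    x.cls F χ = 0 ↔ x.Roots (indK F χ) := by
  rw [x.roots_iff (galchar_ind hF h), x.cls_eq hF h]
  rw [QuotientAddGroup.eq_zero_iff]
  change IsOfFinAddOrder _ ↔ _
  exact isOfFinAddOrder_iff_nsmul_eq_zero

/-- the two descriptions of induced characters -/
theorem indK_eq {F : Sub K} {χ : Fn F} (hχ : ∀ a b : GalF F, χ (b⁻¹ * a * b) = χ a) :
    indK F χ = indGal F χ := by
  funext g
  let T : Gal(AlgebraicClosure K/K) → ℂ := fun y =>
    if h : y⁻¹ * g * y ∈ F.fixingSubgroup then χ ⟨_, h⟩ else 0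
  have hT : ∀ y, ∀ h ∈ F.fixingSubgroup, T (y * h) = T y := by
    intro y h hh
    have e1 : (y * h)⁻¹ * g * (y * h) = h⁻¹ * (y⁻¹ * g * y) * h := by group
    by_cases hy : y⁻¹ * g * y ∈ F.fixingSubgroup
    · have hy' : (y * h)⁻¹ * g * (y * h) ∈ F.fixingSubgroup := by
        rw [e1]
        exact F.fixingSubgroup.mul_mem (F.fixingSubgroup.mul_mem (F.fixingSubgroup.inv_mem hh) hy) hh
      simp only [T]
      rw [dif_pos hy', dif_pos hy, ← hχ ⟨_, hy⟩ ⟨h, hh⟩]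
      exact congrArg χ (Subtype.ext e1)
    · have hy' : (y * h)⁻¹ * g * (y * h) ∉ F.fixingSubgroup := by
        intro hc
        apply hy
        have e2 : y⁻¹ * g * y = h * ((y * h)⁻¹ * g * (y * h)) * h⁻¹ := by group
        rw [e2]
        exact F.fixingSubgroup.mul_mem (F.fixingSubgroup.mul_mem hh hc) (F.fixingSubgroup.inv_mem hh)
      simp only [T]
      rw [dif_neg hy', dif_neg hy]
  have hT2 : ∀ y z : Gal(AlgebraicClosure K/K), y⁻¹ * z ∈ F.fixingSubgroup → T z = T y := by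
    intro y z hyz
    have := hT y _ hyz
    rwa [mul_inv_cancel_left] at this
  symm
  change ∑ᶠ x : Gal(AlgebraicClosure K/K) ⧸ F.fixingSubgroup, T x.out =
    ∑ᶠ x : GalF (base K) ⧸ F.fixingSubgroup.subgroupOf (base K).fixingSubgroup, T (x.out : GalF _)
  let tb : Gal(AlgebraicClosure K/K) → GalF (base K) := fun g => toBot g
  refine finsum_eq_of_bijective (fun x => QuotientGroup.mk (tb x.out)) ⟨?_, ?_⟩ ?_
  · intro x y hxy
    have h2 : (tb x.out)⁻¹ * tb y.out ∈ F.fixingSubgroup.subgroupOf (base K).fixingSubgroup :=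
      QuotientGroup.eq.1 hxy
    have h3 : x.out⁻¹ * y.out ∈ F.fixingSubgroup := Subgroup.mem_subgroupOf.1 h2
    rw [← QuotientGroup.eq, QuotientGroup.out_eq', QuotientGroup.out_eq'] at h3
    exact h3
  · intro z
    refine ⟨QuotientGroup.mk (z.out : GalF (base K)).1, ?_⟩
    conv_rhs => rw [← QuotientGroup.out_eq' z]
    refine QuotientGroup.eq.2 (Subgroup.mem_subgroupOf.2 ?_)
    change (QuotientGroup.mk (z.out : GalF (base K)).1 :
      Gal(AlgebraicClosure K/K) ⧸ F.fixingSubgroup).out⁻¹ * (z.out : GalF (base K)).1 ∈ _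
    rw [← QuotientGroup.eq, QuotientGroup.out_eq']
  · intro x
    refine (hT2 _ _ ?_).symm
    have h2 : (tb x.out)⁻¹ * (QuotientGroup.mk (tb x.out) : GalF (base K) ⧸
        F.fixingSubgroup.subgroupOf (base K).fixingSubgroup).out ∈
        F.fixingSubgroup.subgroupOf (base K).fixingSubgroup := by
      rw [← QuotientGroup.eq, QuotientGroup.out_eq']
    exact Subgroup.mem_subgroupOf.1 h2

/-- an additive function which vanishes at the elements of a set of characters -/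
theorem zero_of_multiple {A : Type} [AddCommGroup A] (D : (Gal(AlgebraicClosure K/K) → ℂ) → A)
    (hadd : ∀ χ χ', IsGalChar χ → IsGalChar χ' → D (χ + χ') = D χ + D χ')
    (G : Set (Gal(AlgebraicClosure K/K) → ℂ)) (hG : ∀ f ∈ G, IsGalChar f ∧ D f = 0)
    {χ : Gal(AlgebraicClosure K/K) → ℂ} (h : IsGalChar χ) {k : ℕ}
    (hk : k • χ ∈ AddSubgroup.closure G) : k • D χ = 0 := by
  have h0 : D 0 = 0 := by
    have h1 := hadd 0 0 isGalChar_zero isGalChar_zero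
    rw [add_zero] at h1
    exact left_eq_add.1 h1
  have hns : ∀ k : ℕ, D (k • χ) = k • D χ := by
    intro k
    induction k with
    | zero => rw [zero_smul, zero_smul, h0]
    | succ k ih => rw [succ_nsmul, hadd _ _ (isGalChar_nsmul h k) h, ih, succ_nsmul]
  have key : ∀ f ∈ AddSubgroup.closure G,
      ∃ a₁ a₂, IsGalChar a₁ ∧ IsGalChar a₂ ∧ f + a₂ = a₁ ∧ D a₁ = 0 ∧ D a₂ = 0 := by
    intro f hf
    induction hf using AddSubgroup.closure_induction with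
    | mem f hf => exact ⟨f, 0, (hG f hf).1, isGalChar_zero, add_zero _, (hG f hf).2, h0⟩
    | zero => exact ⟨0, 0, isGalChar_zero, isGalChar_zero, add_zero 0, h0, h0⟩
    | add a b _ _ ha hb =>
      obtain ⟨a₁, a₂, h1, h2, h3, h4, h5⟩ := ha
      obtain ⟨b₁, b₂, k1, k2, k3, k4, k5⟩ := hb
      refine ⟨a₁ + b₁, a₂ + b₂, isGalChar_add h1 k1, isGalChar_add h2 k2, ?_, ?_, ?_⟩
      · rw [← h3, ← k3]
        abel
      · rw [hadd _ _ h1 k1, h4, k4, add_zero]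
      · rw [hadd _ _ h2 k2, h5, k5, add_zero]
    | neg a _ ha =>
      obtain ⟨a₁, a₂, h1, h2, h3, h4, h5⟩ := ha
      refine ⟨a₂, a₁, h2, h1, ?_, h5, h4⟩
      rw [← h3]
      abel
  obtain ⟨a₁, a₂, h1, h2, h3, h4, h5⟩ := key _ hk
  have h6 := hadd _ _ (isGalChar_nsmul h k) h2
  rw [h3, h4, h5, hns, add_zero] at h6
  exact h6.symm

open Pool.Agent.Q20.RS (Sign Kind IndKind Multiple) in
/-- the three kinds of linear characters suffice -/
theorem Datum.kinds [IsTotallyReal K] (x : Datum K) {s : ℂˣ} (hs : s = 1 ∨ s = -1)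
    {ε : Gal(AlgebraicClosure K/K) →* ℂˣ} (hε : Sign s ε) {M : ℕ} {S : Finset ℕ} {L : Sub K}
    (hM : 0 < M) (hL : FinExt L)
    (hx : ∀ (F : Sub K) (ψ : Pool.Agent.Q20.RS.Lin F), FinExt F → Kind s ε M S L ψ →
      x.Roots (indK F ψ.fn)) {F : Sub K} (hF : FinExt F) {χ : Fn F} (hχ : Char χ) :
    x.Roots (indK F χ) := by
  have hc := Pool.Agent.Q20.RS.RL.ind_char' fin_base hF hχ
  obtain ⟨k, hk, h1⟩ := (Pool.Agent.Q20.RS.induction (K := K) s hs).2 ε hε M S L hM hL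
    (ind (base K) F χ) (AddSubgroup.subset_closure hc)
  let u : (GalF (base K) → ℂ) →+ (Gal(AlgebraicClosure K/K) → ℂ) :=
    { toFun := fun f g => f (toBot g)
      map_zero' := rfl
      map_add' := fun _ _ => rfl }
  obtain ⟨J, hJ⟩ : ∃ J : Set (GalF (base K) → ℂ), J = IndKind s ε M S L := ⟨_, rfl⟩
  obtain ⟨f₀, hf₀⟩ : ∃ f₀ : GalF (base K) → ℂ, f₀ = ind (base K) F χ := ⟨_, rfl⟩
  have h1' : k • f₀ ∈ AddSubgroup.closure J := by
    rw [hJ, hf₀]
    exact h1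
  have h2 : k • indK F χ ∈ AddSubgroup.closure (u '' J) := by
    rw [← AddMonoidHom.map_closure]
    refine ⟨_, h1', ?_⟩
    have e : u f₀ = indK F χ := by rw [hf₀]; rfl
    rw [← e]
    exact map_nsmul u k f₀
  let DT : (Gal(AlgebraicClosure K/K) → ℂ) → Defects := fun χ => QuotientAddGroup.mk (x.D χ)
  have h3 := zero_of_multiple DT (fun a b ha hb => congrArg QuotientAddGroup.mk (x.D_add ha hb))
    (u '' J) (by
      rintro _ ⟨f, hf, rfl⟩
      rw [hJ] at hf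
      obtain ⟨F', ψ, hF', hψ, rfl⟩ := hf
      have hψc : Char ψ.fn := Pool.Agent.Q20.RS.RL.lin_char ψ.hom ψ.smooth
      exact ⟨galchar_ind hF' hψc, (x.cls_eq hF' hψc).symm.trans
        ((x.cls_zero hF' hψc).2 (hx F' ψ hF' hψ))⟩)
    (galchar_ind hF hχ) h2
  exact (x.cls_zero hF hχ).1 ((x.cls_eq hF hχ).trans (defects_tfd.2 k _ hk h3))

theorem Datum.wellDefined (x : Datum K) : x.WellDefined := by
  refine ⟨fun F χ hF h => artin_of_isGalChar (galchar_ind hF h), fun d ρ hρ =>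
    ⟨x.exists_B hρ, fun B hB => ⟨(x.ne (RingEquiv.refl ℂ) hρ hB).1, fun σ =>
      ⟨(x.ne σ hρ hB).2, fun B' hB' => ?_⟩⟩⟩⟩
  rw [x.defect_eq σ hρ hB, x.defect_eq σ hρ hB']

end

end Pool.Agent.Q246.TP
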