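import Pool.Agent.Q20.TW.Std
import Pool.Agent.Q20.RS.Cgd
import Pool.Agent.W401.Cheb.AbsDefs

/-! The defect of Deligne's conjecture for the Artin twists of a motive: definitions. -/

set_option autoImplicit false
set_option linter.unusedSectionVars false

namespace Pool.Agent.Q246.TP

open Filter NumberField IsDedekindDomain Polynomial
open Pool.Agent.W401.Cheb (IsFrob)
open Pool.Agent.Q20.RS (FinExt Fn ind Char base)
open scoped Classical

section
variable {K : Type} [Field K] [NumberField K]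

/-- the intermediate fields of `K̄/K` -/
abbrev Sub (K : Type) [Field K] : Type := IntermediateField K (AlgebraicClosure K)

/-- Artin representations of `Gal(K̄/K)`: trivial on an open subgroup -/
def IsArtin {d : ℕ} (ρ : Representation ℂ Gal(AlgebraicClosure K/K) (Fin d → ℂ)) : Prop :=
  ∃ E : IntermediateField K (AlgebraicClosure K), FiniteDimensional K E ∧
    ∀ g ∈ E.fixingSubgroup, ρ g = 1

/-- the polynomials `B v` are the Euler factors of `M ⊗ ρ`, where `M` has the Frobenius eigenvalues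
`α v i`: at almost all `v` and for all Frobenius elements `τ` at `v`,
`B_v(z) = ∏_i det(1 - α_{v,i} z ρ(τ⁻¹))`; at the finitely many others `B_v` is any polynomial with
`B_v(N(v)^(-m)) ≠ 0` -/
structure IsTw {n : ℕ} (α : HeightOneSpectrum (𝓞 K) → Fin n → ℂ) {d : ℕ}
    (ρ : Representation ℂ Gal(AlgebraicClosure K/K) (Fin d → ℂ)) (m : ℤ)
    (B : HeightOneSpectrum (𝓞 K) → ℂ[X]) : Prop where
  good : ∀ᶠ v in cofinite, ∀ τ, IsFrob v τ → ∀ z : ℂ,
    (B v).eval z = ∏ i, LinearMap.det (1 - (α v i * z) • ρ τ⁻¹)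
  ne : ∀ v, (B v).eval ((Ideal.absNorm v.asIdeal : ℂ) ^ (-m)) ≠ 0

/-- the value `∏_v B_v(N(v)^(-m))⁻¹` at `m` -/
noncomputable def value (m : ℤ) (B : HeightOneSpectrum (𝓞 K) → ℂ[X]) : ℂ :=
  ∏' v : HeightOneSpectrum (𝓞 K), ((B v).eval ((Ideal.absNorm v.asIdeal : ℂ) ^ (-m)))⁻¹

end

/-- A motive `M` over `K` right of the strip, with the periods of the Artin twists of its conjugates. -/
structure Datum (K : Type) [Field K] [NumberField K] : Type where
  /-- the rank of `M` -/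
  n : ℕ
  /-- the weight of `M` -/
  w : ℤ
  /-- the Frobenius eigenvalues of `M` at almost all places -/
  α : HeightOneSpectrum (𝓞 K) → Fin n → ℂ
  /-- they are algebraic numbers all of whose conjugates have absolute value at most `N(v)^(w/2)` -/
  pure : ∀ᶠ v in cofinite, ∀ i, IsAlgebraic ℚ (α v i) ∧
    ∀ σ : ℂ ≃+* ℂ, ‖σ (α v i)‖ ≤ (Ideal.absNorm v.asIdeal : ℝ) ^ ((w : ℝ) / 2)
  /-- the integer at which we look -/
  m : ℤ
  right : w + 2 < 2 * m
  /-- `p σ χ` is the period of the twist `M^σ ⊗ χ` of the conjugate `M^σ` of `M` -/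
  p : (ℂ ≃+* ℂ) → (Gal(AlgebraicClosure K/K) → ℂ) → ℂˣ
  mul : ∀ (σ : ℂ ≃+* ℂ) (d₁ d₂ : ℕ)
    (ρ₁ : Representation ℂ Gal(AlgebraicClosure K/K) (Fin d₁ → ℂ))
    (ρ₂ : Representation ℂ Gal(AlgebraicClosure K/K) (Fin d₂ → ℂ)), IsArtin ρ₁ → IsArtin ρ₂ →
    p σ (ρ₁.character + ρ₂.character) = p σ ρ₁.character * p σ ρ₂.character

/-- the group of the defects modulo roots of unity of bounded order -/
abbrev Defects : Type := ((ℂ ≃+* ℂ) → Additive ℂˣ) ⧸ AddCommGroup.torsion ((ℂ ≃+* ℂ) → Additive ℂˣ)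

section
variable {K : Type} [Field K] [NumberField K]

/-- **The defect** of Deligne's conjecture: the quotient of `σ(L(m, M ⊗ χ) / p(M ⊗ χ))` and
`L(m, M^σ ⊗ χ^σ) / p(M^σ ⊗ χ^σ)`; the polynomials `B v` are the Euler factors of `M ⊗ χ` -/
noncomputable def Datum.defect (x : Datum K) (σ : ℂ ≃+* ℂ) (χ : Gal(AlgebraicClosure K/K) → ℂ)
    (B : HeightOneSpectrum (𝓞 K) → ℂ[X]) : ℂ :=
  σ (value x.m B / (x.p (RingEquiv.refl ℂ) χ : ℂ)) /
    (value x.m (fun v => (B v).map (σ : ℂ →+* ℂ)) / (x.p σ (fun g => σ (χ g)) : ℂ))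

/-- Deligne's conjecture for the value `L(m, M ⊗ χ)` -/
def Datum.Holds (x : Datum K) (χ : Gal(AlgebraicClosure K/K) → ℂ) : Prop :=
  ∀ (σ : ℂ ≃+* ℂ) (d : ℕ) (ρ : Representation ℂ Gal(AlgebraicClosure K/K) (Fin d → ℂ)),
    IsArtin ρ → ρ.character = χ → ∀ B, IsTw x.α ρ x.m B →
      σ (value x.m B / (x.p (RingEquiv.refl ℂ) χ : ℂ)) =
        value x.m (fun v => (B v).map (σ : ℂ →+* ℂ)) / (x.p σ (fun g => σ (χ g)) : ℂ)

/-- The `k`-th powers of the defects of `χ₁` and `χ₂` are equal. -/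
def Datum.Same (x : Datum K) (k : ℕ) (χ₁ χ₂ : Gal(AlgebraicClosure K/K) → ℂ) : Prop :=
  ∀ (σ : ℂ ≃+* ℂ) (d₁ d₂ : ℕ)
    (ρ₁ : Representation ℂ Gal(AlgebraicClosure K/K) (Fin d₁ → ℂ))
    (ρ₂ : Representation ℂ Gal(AlgebraicClosure K/K) (Fin d₂ → ℂ)), IsArtin ρ₁ → IsArtin ρ₂ →
    ρ₁.character = χ₁ → ρ₂.character = χ₂ → ∀ B₁ B₂, IsTw x.α ρ₁ x.m B₁ → IsTw x.α ρ₂ x.m B₂ →
      x.defect σ χ₁ B₁ ^ k = x.defect σ χ₂ B₂ ^ k

/-- Deligne's conjecture up to roots of unity: the `k`-th powers of all defects of `χ` are `1` for some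
`k > 0`. -/
def Datum.Roots (x : Datum K) (χ : Gal(AlgebraicClosure K/K) → ℂ) : Prop :=
  ∃ k : ℕ, 0 < k ∧ ∀ (σ : ℂ ≃+* ℂ) (d : ℕ)
    (ρ : Representation ℂ Gal(AlgebraicClosure K/K) (Fin d → ℂ)),
    IsArtin ρ → ρ.character = χ → ∀ B, IsTw x.α ρ x.m B → x.defect σ χ B ^ k = 1

/-- the character of `Gal(K̄/K)` induced from a character of `Gal(K̄/F)` -/
noncomputable def indK (F : Sub K) (χ : Fn F) : Gal(AlgebraicClosure K/K) → ℂ := fun g =>
  ind (base K) F χ ⟨g, by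
    unfold base
    rw [IntermediateField.fixingSubgroup_bot]
    exact Subgroup.mem_top g⟩

/-- the family `(defect_σ)_σ` of the defects of `M ⊗ Ind χ`, modulo roots of unity of bounded order
(for any choice of the Euler factors) -/
noncomputable def Datum.cls (x : Datum K) (F : Sub K) (χ : Fn F) : Defects :=
  if h : ∃ u : (ℂ ≃+* ℂ) → ℂˣ, ∃ (d : ℕ)
      (ρ : Representation ℂ Gal(AlgebraicClosure K/K) (Fin d → ℂ))
      (B : HeightOneSpectrum (𝓞 K) → ℂ[X]), IsArtin ρ ∧ ρ.character = indK F χ ∧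
      IsTw x.α ρ x.m B ∧ ∀ σ, ((u σ : ℂˣ) : ℂ) = x.defect σ (indK F χ) B
  then QuotientAddGroup.mk fun σ => Additive.ofMul (h.choose σ) else 0

/-- Induced characters are characters of Artin representations of `Gal(K̄/K)`; the Euler products
of the twists exist, the values are not zero, and the defects do not depend on the Euler factors at
finitely many places. -/
def Datum.WellDefined (x : Datum K) : Prop :=
  (∀ (F : Sub K) (χ : Fn F), FinExt F → Char χ →
    ∃ (d : ℕ) (ρ : Representation ℂ Gal(AlgebraicClosure K/K) (Fin d → ℂ)), IsArtin ρ ∧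
      ρ.character = indK F χ) ∧
  ∀ (d : ℕ) (ρ : Representation ℂ Gal(AlgebraicClosure K/K) (Fin d → ℂ)), IsArtin ρ →
    (∃ B, IsTw x.α ρ x.m B) ∧ ∀ B, IsTw x.α ρ x.m B → value x.m B ≠ 0 ∧
      ∀ σ : ℂ ≃+* ℂ, value x.m (fun v => (B v).map (σ : ℂ →+* ℂ)) ≠ 0 ∧
        ∀ B', IsTw x.α ρ x.m B' → x.defect σ ρ.character B = x.defect σ ρ.character B'

end

end Pool.Agent.Q246.TP
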