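import Pool.Agent.Q246.DL.Main
import Pool.Agent.Q227.CD.Ram
import Pool.Agent.Q246.TP.Std

/-! The values of all Artin twists to the right of the strip and automorphisms of `ℂ`. -/

set_option autoImplicit false
set_option linter.unusedSectionVars false

namespace Pool.Agent.Q246.TP

open Complex Filter NumberField IsDedekindDomain Polynomial
open Pool.Agent.Q246.BI Pool.Agent.Q246.DL Pool.Agent.W401.Cheb
open scoped Classical

/-- products of factors which are exponentials outside a finite set -/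
theorem tprod_fin {ι : Type} (b h : ι → ℂ) (hs : Summable h) (T : Finset ι) (hb : ∀ v, b v ≠ 0)
    (hT : ∀ v ∉ T, b v = exp (h v)) :
    ∏' v, b v = (∏ v ∈ T, b v / exp (h v)) * exp (∑' v, h v) := by
  let u : ι → ℂ := fun v => if v ∈ T then log (b v) else h v
  have hu : ∀ v, exp (u v) = b v := by
    intro v
    by_cases hv : v ∈ T
    · simp only [u, if_pos hv]
      exact exp_log (hb v)
    · simp only [u, if_neg hv]
      exact (hT v hv).symm
  have hdz : ∀ v ∉ T, u v - h v = 0 := by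
    intro v hv
    simp only [u, if_neg hv, sub_self]
  have hd : HasSum (fun v => u v - h v) (∑ v ∈ T, (u v - h v)) := hasSum_sum_of_ne_finset_zero hdz
  have hus : HasSum u (∑ v ∈ T, (u v - h v) + ∑' v, h v) := by
    have h2 := hd.add hs.hasSum
    refine h2.congr_fun fun v => ?_
    ring
  have hprod := hus.cexp
  have h3 : ∏' v, b v = exp (∑ v ∈ T, (u v - h v) + ∑' v, h v) := by
    rw [← hprod.tprod_eq]
    exact tprod_congr fun v => (hu v).symm
  rw [h3, exp_add, exp_sum]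
  congr 1
  refine Finset.prod_congr rfl fun v _ => ?_
  rw [exp_sub, hu]

section cj
variable (σ : ℂ ≃+* ℂ) {d : ℕ}

/-- apply `σ` to the matrix entries -/
noncomputable def cjE (d : ℕ) : Module.End ℂ (Fin d → ℂ) →+* Module.End ℂ (Fin d → ℂ) :=
  ((Matrix.toLinAlgEquiv' (R := ℂ) (n := Fin d)).toRingEquiv : Matrix (Fin d) (Fin d) ℂ →+*
    Module.End ℂ (Fin d → ℂ)).comp
    ((RingHom.mapMatrix (m := Fin d) (σ : ℂ →+* ℂ)).comp
      ((LinearMap.toMatrixAlgEquiv' (R := ℂ) (n := Fin d)).toRingEquiv :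
        Module.End ℂ (Fin d → ℂ) →+* Matrix (Fin d) (Fin d) ℂ))

theorem cjE_apply (A : Module.End ℂ (Fin d → ℂ)) :
    cjE σ d A = Matrix.toLin' ((LinearMap.toMatrix' A).map σ) := rfl

theorem toMatrix_cjE (A : Module.End ℂ (Fin d → ℂ)) :
    LinearMap.toMatrix' (cjE σ d A) = (LinearMap.toMatrix' A).map σ := by
  rw [cjE_apply, LinearMap.toMatrix'_toLin']

theorem det_cjE (A : Module.End ℂ (Fin d → ℂ)) :
    LinearMap.det (cjE σ d A) = σ (LinearMap.det A) := by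
  rw [← LinearMap.det_toMatrix', ← LinearMap.det_toMatrix', toMatrix_cjE]
  exact (RingHom.map_det (σ : ℂ →+* ℂ) _).symm

theorem trace_cjE (A : Module.End ℂ (Fin d → ℂ)) :
    LinearMap.trace ℂ _ (cjE σ d A) = σ (LinearMap.trace ℂ _ A) := by
  rw [LinearMap.trace_eq_matrix_trace ℂ (Pi.basisFun ℂ (Fin d)),
    LinearMap.trace_eq_matrix_trace ℂ (Pi.basisFun ℂ (Fin d))]
  change (LinearMap.toMatrix' (cjE σ d A)).trace = σ (LinearMap.toMatrix' A).trace
  rw [toMatrix_cjE]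
  unfold Matrix.trace
  rw [map_sum]
  rfl

theorem cjE_smul (c : ℂ) (A : Module.End ℂ (Fin d → ℂ)) :
    cjE σ d (c • A) = σ c • cjE σ d A := by
  apply LinearMap.toMatrix'.injective
  rw [toMatrix_cjE, map_smul, map_smul, toMatrix_cjE]
  ext i j
  simp

theorem det_one_sub (c : ℂ) (A : Module.End ℂ (Fin d → ℂ)) :
    LinearMap.det (1 - σ c • cjE σ d A) = σ (LinearMap.det (1 - c • A)) := by
  have h1 : cjE σ d (1 - c • A) = 1 - σ c • cjE σ d A := by
    rw [RingHom.map_sub, RingHom.map_one, cjE_smul]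
  rw [← det_cjE, h1]

end cj

section
variable {K : Type} [Field K] [NumberField K]

/-- the conjugate representation -/
noncomputable def cjR (σ : ℂ ≃+* ℂ) {d : ℕ}
    (ρ : Representation ℂ Gal(AlgebraicClosure K/K) (Fin d → ℂ)) :
    Representation ℂ Gal(AlgebraicClosure K/K) (Fin d → ℂ) :=
  ((cjE σ d : Module.End ℂ (Fin d → ℂ) →+* Module.End ℂ (Fin d → ℂ)) :
    Module.End ℂ (Fin d → ℂ) →* Module.End ℂ (Fin d → ℂ)).comp ρ

theorem cjR_apply (σ : ℂ ≃+* ℂ) {d : ℕ}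
    (ρ : Representation ℂ Gal(AlgebraicClosure K/K) (Fin d → ℂ)) (g : Gal(AlgebraicClosure K/K)) :
    cjR σ ρ g = cjE σ d (ρ g) := rfl

theorem cjR_artin (σ : ℂ ≃+* ℂ) {d : ℕ}
    {ρ : Representation ℂ Gal(AlgebraicClosure K/K) (Fin d → ℂ)} (h : IsArtin ρ) :
    IsArtin (cjR σ ρ) := by
  obtain ⟨E, hE, h1⟩ := h
  exact ⟨E, hE, fun g hg => by rw [cjR_apply, h1 g hg, map_one]⟩

theorem cjR_char (σ : ℂ ≃+* ℂ) {d : ℕ}
    (ρ : Representation ℂ Gal(AlgebraicClosure K/K) (Fin d → ℂ)) :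
    (cjR σ ρ).character = fun g => σ (ρ.character g) := by
  funext g
  exact trace_cjE σ (ρ g)

variable {n : ℕ} {α : HeightOneSpectrum (𝓞 K) → Fin n → ℂ} {m : ℤ} {s s' : ℝ}
  {S : Set (HeightOneSpectrum (𝓞 K))}

theorem bad_mono {S' : Set (HeightOneSpectrum (𝓞 K))} (hS : Bad α m s S) (h : S ⊆ S')
    (hf : S'.Finite) : Bad α m s S' :=
  ⟨hf, fun v hv => hS.alg v fun hc => hv (h hc), fun v hv => hS.le v fun hc => hv (h hc)⟩

theorem fix_norm (σ : ℂ ≃+* ℂ) (v : HeightOneSpectrum (𝓞 K)) (m : ℤ) :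
    σ ((Ideal.absNorm v.asIdeal : ℂ) ^ (-m)) = (Ideal.absNorm v.asIdeal : ℂ) ^ (-m) := by
  rw [map_zpow₀, map_natCast]

/-- the conjugate eigenvalues -/
def cjA (σ : ℂ ≃+* ℂ) (α : HeightOneSpectrum (𝓞 K) → Fin n → ℂ) :
    HeightOneSpectrum (𝓞 K) → Fin n → ℂ := fun v i => σ (α v i)

theorem exp_hh_conj (σ : ℂ ≃+* ℂ) (hS : Bad α m s S) (hs : 1 < s) (hS' : Bad (cjA σ α) m s' S)
    (hs' : 1 < s') {d : ℕ} {ρ : Representation ℂ Gal(AlgebraicClosure K/K) (Fin d → ℂ)}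
    (h : IsArtin ρ) (v : HeightOneSpectrum (𝓞 K)) :
    σ (exp (hh α m S ρ.character v)) =
      exp (hh (cjA σ α) m S (fun g => σ (ρ.character g)) v) := by
  by_cases hv : v ∈ S
  · unfold hh
    rw [if_pos hv, if_pos hv, exp_zero, map_one]
  · rw [← cjR_char σ ρ, exp_hh hS hs h hv, exp_hh hS' hs' (cjR_artin σ h) hv, map_inv₀, map_prod]
    congr 1
    refine Finset.prod_congr rfl fun i _ => ?_
    rw [cjR_apply, ← det_one_sub]
    congr 3
    unfold xx cjA
    rw [map_mul, fix_norm]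

theorem exists_fin (hS : Bad α m s S) (hs : 1 < s) {d : ℕ}
    {ρ : Representation ℂ Gal(AlgebraicClosure K/K) (Fin d → ℂ)} (h : IsArtin ρ)
    {B : HeightOneSpectrum (𝓞 K) → ℂ[X]} (hB : IsTw α ρ m B) :
    ∃ T : Finset (HeightOneSpectrum (𝓞 K)), ∀ v ∉ T,
      ((B v).eval ((Ideal.absNorm v.asIdeal : ℂ) ^ (-m)))⁻¹ = exp (hh α m S ρ.character v) := by
  have hfin : ∀ᶠ v in cofinite, ((B v).eval ((Ideal.absNorm v.asIdeal : ℂ) ^ (-m)))⁻¹ =
      exp (hh α m S ρ.character v) := by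
    have h1 : ∀ᶠ v in cofinite, v ∉ S := hS.fin.eventually_cofinite_notMem
    filter_upwards [hB.good, h1] with v hv hvS
    rw [exp_hh hS hs h hvS, hv (fr v) (fr_spec v)]
    rfl
  have hT := Filter.eventually_cofinite.1 hfin
  refine ⟨hT.toFinset, fun v hv => ?_⟩
  by_contra hc
  exact hv (hT.mem_toFinset.2 hc)

/-- **The values and automorphisms of `ℂ`.** -/
theorem value_conj (σ : ℂ ≃+* ℂ) (hS : Bad α m s S) (hs : 1 < s) (hS' : Bad (cjA σ α) m s' S)
    (hs' : 1 < s') {d : ℕ} {ρ : Representation ℂ Gal(AlgebraicClosure K/K) (Fin d → ℂ)}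
    (h : IsArtin ρ) {B : HeightOneSpectrum (𝓞 K) → ℂ[X]} (hB : IsTw α ρ m B) :
    value m B ≠ 0 ∧ value m (fun v => (B v).map (σ : ℂ →+* ℂ)) ≠ 0 ∧
      σ (value m B / exp (∑' v, hh α m S ρ.character v)) =
        value m (fun v => (B v).map (σ : ℂ →+* ℂ)) /
          exp (∑' v, hh (cjA σ α) m S (fun g => σ (ρ.character g)) v) := by
  obtain ⟨T, hT⟩ := exists_fin hS hs h hB
  have hev : ∀ v, (((B v).map (σ : ℂ →+* ℂ)).eval ((Ideal.absNorm v.asIdeal : ℂ) ^ (-m)))⁻¹ =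
      σ (((B v).eval ((Ideal.absNorm v.asIdeal : ℂ) ^ (-m)))⁻¹) := by
    intro v
    have h1 := Polynomial.eval_map_apply (f := (σ : ℂ →+* ℂ)) (p := B v)
      ((Ideal.absNorm v.asIdeal : ℂ) ^ (-m))
    rw [RingEquiv.coe_toRingHom, fix_norm] at h1
    rw [h1, map_inv₀]
  have hs1 := hh_summable (α := α) (m := m) hS hs (char_norm h)
  have h2 : Summable (hh (cjA σ α) m S (fun g => σ (ρ.character g))) := by
    rw [← cjR_char σ ρ]
    exact hh_summable hS' hs' (char_norm (cjR_artin σ h))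
  have e1 := tprod_fin _ _ hs1 T (fun v => inv_ne_zero (hB.ne v)) hT
  have e2 := tprod_fin (fun v => (((B v).map (σ : ℂ →+* ℂ)).eval
    ((Ideal.absNorm v.asIdeal : ℂ) ^ (-m)))⁻¹) _ h2 T
    (fun v => by
      rw [hev]
      exact (map_ne_zero σ).2 (inv_ne_zero (hB.ne v)))
    (fun v hv => by rw [hev, hT v hv, exp_hh_conj σ hS hs hS' hs' h])
  have e1' : value m B = _ := e1
  have e2' : value m (fun v => (B v).map (σ : ℂ →+* ℂ)) = _ := e2
  refine ⟨?_, ?_, ?_⟩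
  · rw [e1']
    exact mul_ne_zero (Finset.prod_ne_zero_iff.2 fun v _ =>
      div_ne_zero (inv_ne_zero (hB.ne v)) (exp_ne_zero _)) (exp_ne_zero _)
  · rw [e2']
    refine mul_ne_zero (Finset.prod_ne_zero_iff.2 fun v _ => div_ne_zero ?_ (exp_ne_zero _))
      (exp_ne_zero _)
    rw [hev]
    exact (map_ne_zero σ).2 (inv_ne_zero (hB.ne v))
  · rw [e1', e2', mul_div_cancel_right₀ _ (exp_ne_zero _), mul_div_cancel_right₀ _ (exp_ne_zero _),
      map_prod]
    refine Finset.prod_congr rfl fun v _ => ?_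
    rw [map_div₀, hev, exp_hh_conj σ hS hs hS' hs' h]

theorem det_conj {d : ℕ} (P P' A : Module.End ℂ (Fin d → ℂ)) (hP : P * P' = 1) (c : ℂ) :
    LinearMap.det (1 - c • (P * A * P')) = LinearMap.det (1 - c • A) := by
  have h1 : 1 - c • (P * A * P') = P * (1 - c • A) * P' := by
    rw [mul_sub, sub_mul, mul_one, hP, mul_smul_comm, smul_mul_assoc]
  rw [h1, map_mul, map_mul, mul_right_comm, ← map_mul, hP, map_one, one_mul]

/-- Euler factors exist -/
theorem exists_tw (hS : Bad α m s S) (hs : 1 < s) {d : ℕ}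
    {ρ : Representation ℂ Gal(AlgebraicClosure K/K) (Fin d → ℂ)} (h : IsArtin ρ) :
    ∃ B, IsTw α ρ m B := by
  have h0 : ∀ v : HeightOneSpectrum (𝓞 K), ∃ l : Fin d → ℂ,
      ∀ c : ℂ, LinearMap.det (1 - c • ρ (fr v)⁻¹) = ∏ i, (1 - c * l i) := by
    intro v
    obtain ⟨k, hk, h1⟩ := pow_one_of_artin h (fr v)⁻¹
    obtain ⟨l, -, -, h2, -⟩ := eig _ hk h1
    exact ⟨l, h2⟩
  choose l hl using h0
  let B : HeightOneSpectrum (𝓞 K) → ℂ[X] := fun v => if v ∈ S then 1 else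
    ∏ i, ∏ j, (1 - C (α v i * l v j) * X)
  have hB : ∀ v ∉ S, ∀ z, (B v).eval z = ∏ i, LinearMap.det (1 - (α v i * z) • ρ (fr v)⁻¹) := by
    intro v hv z
    simp only [B, if_neg hv]
    rw [Polynomial.eval_prod]
    refine Finset.prod_congr rfl fun i _ => ?_
    rw [Polynomial.eval_prod, hl]
    refine Finset.prod_congr rfl fun j _ => ?_
    simp only [eval_sub, eval_one, eval_mul, eval_C, eval_X]
    ring
  obtain ⟨E, hE, hE1⟩ := id h
  have hR := Pool.Agent.Q227.CD.ram_finite (K := K) E.fixingSubgroup E.fixingSubgroup_isOpen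
  refine ⟨B, ?_, fun v => ?_⟩
  · filter_upwards [hS.fin.eventually_cofinite_notMem, hR.eventually_cofinite_notMem] with
      v hv hvR σ hσ z
    rw [hB v hv]
    obtain ⟨g, ι, hι, rfl⟩ := Pool.Agent.W401.Frob.conj_frob v (fr v) σ (fr_spec v) hσ
    have h1 : ι ∈ E.fixingSubgroup := by
      by_contra hc
      exact hvR ⟨ι, hι, hc⟩
    have h2 : ρ (g * fr v * g⁻¹ * ι)⁻¹ = ρ g * ρ (fr v)⁻¹ * ρ g⁻¹ := by
      rw [show (g * fr v * g⁻¹ * ι)⁻¹ = ι⁻¹ * (g * (fr v)⁻¹ * g⁻¹) by group, map_mul,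
        hE1 _ (E.fixingSubgroup.inv_mem h1), one_mul, map_mul, map_mul]
    refine Finset.prod_congr rfl fun i _ => ?_
    rw [h2, det_conj _ _ _ (by rw [← map_mul, mul_inv_cancel, map_one])]
  · by_cases hv : v ∈ S
    · simp only [B, if_pos hv, eval_one]
      exact one_ne_zero
    · rw [hB v hv]
      refine Finset.prod_ne_zero_iff.2 fun i _ => ?_
      obtain ⟨k, hk, h1⟩ := pow_one_of_artin h (fr v)⁻¹
      exact det_ne _ hk h1 ((hS.half hs hv i).trans_lt (by norm_num))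

end

end Pool.Agent.Q246.TP
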